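import Mathlib

/-!
# A primitive axial algebra with a decomposable block

A four-dimensional commutative algebra over `ℚ` with basis `a, d, e, b` and products
`aa = a`, `ad = 2d`, `ae = 0`, `ab = d`, `dd = de = ee = 0`, `db = e`, `eb = 2d + e`, `bb = b`.
It is generated by the primitive axes `a` (eigenvalues `1, 2, 0, 0`) and `b` (eigenvalues
`1, 0, 2, -1`).  The ideal generated by `a` is `span (a, d, e)`, and as an algebra it is the direct
sum of its ideals `span (a, d)` and `span (e)`.
-/

set_option autoImplicit false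

namespace Pool.Agent.Results.MP_89b943_al.DecomposableBlock

section Defs

universe u v

/-- A fusion law on the field `F`: a set `carrier` of scalars containing `1`, with a map `op` which
sends two elements of the set to a subset of it. -/
structure FusionLaw (F : Type u) [Field F] where
  /-- the set of eigenvalues -/
  carrier : Set F
  one_mem : (1 : F) ∈ carrier
  /-- the fusion map -/
  op : F → F → Set F
  op_subset : ∀ x ∈ carrier, ∀ y ∈ carrier, op x y ⊆ carrier

variable (F : Type u) [Field F] {A : Type v} [NonUnitalNonAssocCommRing A] [Module F A]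
  [IsScalarTower F A A] [SMulCommClass F A A]

/-- The eigenspace `A_c(a) = {u | a u = c u}`. -/
def eig (a : A) (c : F) : Submodule F A where
  carrier := {u | a * u = c • u}
  zero_mem' := by simp
  add_mem' := by
    intro x y hx hy
    simp only [Set.mem_ofPred_eq] at *
    rw [mul_add, hx, hy, smul_add]
  smul_mem' := by
    intro t x hx
    simp only [Set.mem_ofPred_eq] at *
    rw [mul_smul_comm, hx, smul_comm]

/-- `A_S(a)`, the sum of the eigenspaces `A_c(a)` with `c ∈ S`. -/
def eigS (a : A) (S : Set F) : Submodule F A := ⨆ c ∈ S, eig F a c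

/-- `a` is a primitive axis for the fusion law `𝓕`: a nonzero idempotent such that `A` is the sum
of the eigenspaces of `a` for the eigenvalues in `𝓕`, these eigenspaces multiply according to `𝓕`,
and the `1`-eigenspace is spanned by `a`. -/
structure IsPrimitiveAxis (𝓕 : FusionLaw F) (a : A) : Prop where
  ne_zero : a ≠ 0
  idem : a * a = a
  diag : eigS F a 𝓕.carrier = ⊤
  fusion : ∀ x ∈ 𝓕.carrier, ∀ y ∈ 𝓕.carrier, ∀ u ∈ eig F a x, ∀ v ∈ eig F a y,
    u * v ∈ eigS F a (𝓕.op x y)
  primitive : eig F a 1 = Submodule.span F {a}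

/-- `(A, X)` is a primitive axial algebra for the fusion law `𝓕`: `X` is a set of primitive axes
which generates the algebra `A`. -/
def IsPrimitiveAxial (𝓕 : FusionLaw F) (X : Set A) : Prop :=
  (∀ a ∈ X, IsPrimitiveAxis F 𝓕 a) ∧ NonUnitalAlgebra.adjoin F X = ⊤

/-- `J` is an ideal of the algebra `B`, where `B` is a subspace of `A` (closed under products in
the uses below; `B = ⊤` gives the ideals of `A`). -/
def IsIdealOf (B J : Submodule F A) : Prop := J ≤ B ∧ ∀ x ∈ J, ∀ y ∈ B, x * y ∈ J

/-- The block `I_a`: the smallest ideal of `A` which contains `a`. -/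
def block (a : A) : Submodule F A := sInf {J | IsIdealOf F ⊤ J ∧ a ∈ J}

/-- The algebra `B` (a subspace of `A` closed under products) is decomposable: it is the sum of its
proper ideals. -/
def Decomposable (B : Submodule F A) : Prop := sSup {J | IsIdealOf F B J ∧ J ≠ B} = B

end Defs

/-- the algebra: `⟨p, q, r, s⟩` is `p a + q d + r e + s b` -/
@[ext] structure T where
  p : ℚ
  q : ℚ
  r : ℚ
  s : ℚ

namespace T

instance : Zero T := ⟨⟨0, 0, 0, 0⟩⟩
instance : Add T := ⟨fun u v => ⟨u.p + v.p, u.q + v.q, u.r + v.r, u.s + v.s⟩⟩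
instance : Neg T := ⟨fun u => ⟨-u.p, -u.q, -u.r, -u.s⟩⟩
instance : Sub T := ⟨fun u v => ⟨u.p - v.p, u.q - v.q, u.r - v.r, u.s - v.s⟩⟩
instance : SMul ℚ T := ⟨fun t u => ⟨t * u.p, t * u.q, t * u.r, t * u.s⟩⟩
instance : Mul T := ⟨fun u v => ⟨u.p * v.p,
  2 * (u.p * v.q + u.q * v.p) + (u.p * v.s + u.s * v.p) + 2 * (u.r * v.s + u.s * v.r),
  (u.q * v.s + u.s * v.q) + (u.r * v.s + u.s * v.r), u.s * v.s⟩⟩

@[simp] theorem zero_p : (0 : T).p = 0 := rfl
@[simp] theorem zero_q : (0 : T).q = 0 := rfl
@[simp] theorem zero_r : (0 : T).r = 0 := rfl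
@[simp] theorem zero_s : (0 : T).s = 0 := rfl
@[simp] theorem add_p (u v : T) : (u + v).p = u.p + v.p := rfl
@[simp] theorem add_q (u v : T) : (u + v).q = u.q + v.q := rfl
@[simp] theorem add_r (u v : T) : (u + v).r = u.r + v.r := rfl
@[simp] theorem add_s (u v : T) : (u + v).s = u.s + v.s := rfl
@[simp] theorem neg_p (u : T) : (-u).p = -u.p := rfl
@[simp] theorem neg_q (u : T) : (-u).q = -u.q := rfl
@[simp] theorem neg_r (u : T) : (-u).r = -u.r := rfl
@[simp] theorem neg_s (u : T) : (-u).s = -u.s := rfl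
@[simp] theorem sub_p (u v : T) : (u - v).p = u.p - v.p := rfl
@[simp] theorem sub_q (u v : T) : (u - v).q = u.q - v.q := rfl
@[simp] theorem sub_r (u v : T) : (u - v).r = u.r - v.r := rfl
@[simp] theorem sub_s (u v : T) : (u - v).s = u.s - v.s := rfl
@[simp] theorem smul_p (t : ℚ) (u : T) : (t • u).p = t * u.p := rfl
@[simp] theorem smul_q (t : ℚ) (u : T) : (t • u).q = t * u.q := rfl
@[simp] theorem smul_r (t : ℚ) (u : T) : (t • u).r = t * u.r := rfl
@[simp] theorem smul_s (t : ℚ) (u : T) : (t • u).s = t * u.s := rfl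
@[simp] theorem mul_p (u v : T) : (u * v).p = u.p * v.p := rfl
@[simp] theorem mul_q (u v : T) : (u * v).q =
  2 * (u.p * v.q + u.q * v.p) + (u.p * v.s + u.s * v.p) + 2 * (u.r * v.s + u.s * v.r) := rfl
@[simp] theorem mul_r (u v : T) : (u * v).r =
  (u.q * v.s + u.s * v.q) + (u.r * v.s + u.s * v.r) := rfl
@[simp] theorem mul_s (u v : T) : (u * v).s = u.s * v.s := rfl

instance : NonUnitalNonAssocCommRing T where
  add_assoc u v w := by ext <;> simp [add_assoc]
  zero_add u := by ext <;> simp
  add_zero u := by ext <;> simp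
  nsmul := nsmulRec
  zsmul := zsmulRec
  neg_add_cancel u := by ext <;> simp
  add_comm u v := by ext <;> simp [add_comm]
  sub_eq_add_neg u v := by ext <;> simp [sub_eq_add_neg]
  left_distrib u v w := by ext <;> simp <;> ring
  right_distrib u v w := by ext <;> simp <;> ring
  zero_mul u := by ext <;> simp
  mul_zero u := by ext <;> simp
  mul_comm u v := by ext <;> simp <;> ring

instance : Module ℚ T where
  one_smul u := by ext <;> simp
  mul_smul s t u := by ext <;> simp [mul_assoc]
  smul_zero t := by ext <;> simp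
  smul_add t u v := by ext <;> simp [mul_add]
  add_smul s t u := by ext <;> simp [add_mul]
  zero_smul u := by ext <;> simp

instance : IsScalarTower ℚ T T := ⟨fun t u v => by
  change (t • u) * v = t • (u * v)
  ext <;> simp <;> ring⟩

instance : SMulCommClass ℚ T T := ⟨fun t u v => by
  change t • (u * v) = u * (t • v)
  ext <;> simp <;> ring⟩

end T

/-- the first axis -/
def a : T := ⟨1, 0, 0, 0⟩
/-- basis vector -/
def d : T := ⟨0, 1, 0, 0⟩
/-- basis vector -/
def e : T := ⟨0, 0, 1, 0⟩
/-- the second axis -/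
def b : T := ⟨0, 0, 0, 1⟩

/-- the full fusion law on the set `{1, 0, 2, -1}` -/
def law : FusionLaw ℚ where
  carrier := {1, 0, 2, -1}
  one_mem := by simp
  op := fun _ _ => {1, 0, 2, -1}
  op_subset := fun _ _ _ _ => le_refl _

theorem mem_eig {x : T} {c : ℚ} {u : T} : u ∈ eig ℚ x c ↔ x * u = c • u := Iff.rfl

theorem eig_le {x : T} {c : ℚ} (hc : c ∈ ({1, 0, 2, -1} : Set ℚ)) :
    eig ℚ x c ≤ eigS ℚ x {1, 0, 2, -1} := le_iSup₂_of_le c hc le_rfl

theorem diag_a : eigS ℚ a {1, 0, 2, -1} = ⊤ := by
  rw [eq_top_iff]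
  rintro ⟨p, q, r, s⟩ -
  have h1 : (⟨p, 0, 0, 0⟩ : T) ∈ eig ℚ a 1 := by
    rw [mem_eig]; ext <;> simp [a]
  have h2 : (⟨0, q + s / 2, 0, 0⟩ : T) ∈ eig ℚ a 2 := by
    rw [mem_eig]; ext <;> simp [a]
  have h3 : (⟨0, -s / 2, r, s⟩ : T) ∈ eig ℚ a 0 := by
    rw [mem_eig]; ext <;> simp [a] <;> ring
  have h4 : (⟨p, q, r, s⟩ : T) = ⟨p, 0, 0, 0⟩ + ⟨0, q + s / 2, 0, 0⟩ + ⟨0, -s / 2, r, s⟩ := by
    ext <;> simp
    ring
  rw [h4]
  exact Submodule.add_mem _ (Submodule.add_mem _ (eig_le (by simp) h1) (eig_le (by simp) h2))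
    (eig_le (by simp) h3)

theorem diag_b : eigS ℚ b {1, 0, 2, -1} = ⊤ := by
  rw [eq_top_iff]
  rintro ⟨p, q, r, s⟩ -
  have h1 : (⟨0, 0, 0, s⟩ : T) ∈ eig ℚ b 1 := by
    rw [mem_eig]; ext <;> simp [b]
  have h2 : (⟨p, p / 2, -p / 2, 0⟩ : T) ∈ eig ℚ b 0 := by
    rw [mem_eig]; ext <;> simp [b] <;> ring
  have h3 : (⟨0, (q + 2 * r + p / 2) / 3, (q + 2 * r + p / 2) / 3, 0⟩ : T) ∈ eig ℚ b 2 := by
    rw [mem_eig]; ext <;> simp [b] <;> ring
  have h4 : (⟨0, -2 * ((r - q + p) / 3), (r - q + p) / 3, 0⟩ : T) ∈ eig ℚ b (-1) := by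
    rw [mem_eig]; ext <;> simp [b] <;> ring
  have h5 : (⟨p, q, r, s⟩ : T) = ⟨0, 0, 0, s⟩ + ⟨p, p / 2, -p / 2, 0⟩ +
      ⟨0, (q + 2 * r + p / 2) / 3, (q + 2 * r + p / 2) / 3, 0⟩ +
      ⟨0, -2 * ((r - q + p) / 3), (r - q + p) / 3, 0⟩ := by
    ext <;> simp <;> ring
  rw [h5]
  exact Submodule.add_mem _ (Submodule.add_mem _ (Submodule.add_mem _ (eig_le (by simp) h1)
    (eig_le (by simp) h2)) (eig_le (by simp) h3)) (eig_le (by simp) h4)

theorem axis_a : IsPrimitiveAxis ℚ law a where
  ne_zero := by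
    intro h
    have := congrArg T.p h
    simp [a] at this
  idem := by ext <;> simp [a]
  diag := diag_a
  fusion := by
    intro x _ y _ u _ v _
    change u * v ∈ eigS ℚ a {1, 0, 2, -1}
    rw [diag_a]
    trivial
  primitive := by
    apply le_antisymm
    · intro u hu
      rw [mem_eig] at hu
      have h1 := congrArg T.q hu
      have h2 := congrArg T.r hu
      have h3 := congrArg T.s hu
      simp [a] at h1 h2 h3
      rw [Submodule.mem_span_singleton]
      refine ⟨u.p, ?_⟩
      ext
      · simp [a]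
      · simp [a]; rw [← h3] at h1; linarith
      · simp [a]; exact h2
      · simp [a]; exact h3
    · rw [Submodule.span_singleton_le_iff_mem, mem_eig]
      ext <;> simp [a]

theorem axis_b : IsPrimitiveAxis ℚ law b where
  ne_zero := by
    intro h
    have := congrArg T.s h
    simp [b] at this
  idem := by ext <;> simp [b]
  diag := diag_b
  fusion := by
    intro x _ y _ u _ v _
    change u * v ∈ eigS ℚ b {1, 0, 2, -1}
    rw [diag_b]
    trivial
  primitive := by
    apply le_antisymm
    · intro u hu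
      rw [mem_eig] at hu
      have h1 := congrArg T.p hu
      have h2 := congrArg T.q hu
      have h3 := congrArg T.r hu
      simp [b] at h1 h2 h3
      rw [Submodule.mem_span_singleton]
      refine ⟨u.s, ?_⟩
      have hp : u.p = 0 := by linarith
      have hq : u.q = 0 := by linarith
      have hr : u.r = 0 := by rw [hp, hq] at h2; linarith
      ext
      · simp [b, hp]
      · simp [b, hq]
      · simp [b, hr]
      · simp [b]
    · rw [Submodule.span_singleton_le_iff_mem, mem_eig]
      ext <;> simp [b]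

theorem generated : NonUnitalAlgebra.adjoin ℚ ({a, b} : Set T) = ⊤ := by
  rw [eq_top_iff]
  intro u _
  have ha : a ∈ NonUnitalAlgebra.adjoin ℚ ({a, b} : Set T) :=
    NonUnitalAlgebra.subset_adjoin ℚ (by simp)
  have hb : b ∈ NonUnitalAlgebra.adjoin ℚ ({a, b} : Set T) :=
    NonUnitalAlgebra.subset_adjoin ℚ (by simp)
  have hd : d ∈ NonUnitalAlgebra.adjoin ℚ ({a, b} : Set T) := by
    have : d = a * b := by ext <;> simp [a, b, d]
    rw [this]
    exact mul_mem ha hb
  have he : e ∈ NonUnitalAlgebra.adjoin ℚ ({a, b} : Set T) := by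
    have : e = d * b := by ext <;> simp [b, d, e]
    rw [this]
    exact mul_mem hd hb
  have h : u = u.p • a + u.q • d + u.r • e + u.s • b := by
    ext <;> simp [a, b, d, e]
  rw [h]
  exact add_mem (add_mem (add_mem (SMulMemClass.smul_mem _ ha) (SMulMemClass.smul_mem _ hd))
    (SMulMemClass.smul_mem _ he)) (SMulMemClass.smul_mem _ hb)

/-- the block of `a` -/
def B : Submodule ℚ T where
  carrier := {u | u.s = 0}
  zero_mem' := rfl
  add_mem' := by
    intro x y hx hy
    simp only [Set.mem_ofPred_eq, T.add_s] at *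
    rw [hx, hy, add_zero]
  smul_mem' := by
    intro t x hx
    simp only [Set.mem_ofPred_eq, T.smul_s] at *
    rw [hx, mul_zero]

theorem mem_B {u : T} : u ∈ B ↔ u.s = 0 := Iff.rfl

theorem block_a : block ℚ a = B := by
  apply le_antisymm
  · apply sInf_le
    refine ⟨⟨le_top, ?_⟩, rfl⟩
    intro x hx y _
    rw [mem_B] at hx ⊢
    simp [hx]
  · rw [block, le_sInf_iff]
    rintro J ⟨⟨_, hJ⟩, haJ⟩
    have hd : d ∈ J := by
      have : d = a * b := by ext <;> simp [a, b, d]
      rw [this]
      exact hJ a haJ b trivial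
    have he : e ∈ J := by
      have : e = d * b := by ext <;> simp [b, d, e]
      rw [this]
      exact hJ d hd b trivial
    intro u hu
    rw [mem_B] at hu
    have h : u = u.p • a + u.q • d + u.r • e := by
      ext <;> simp [a, d, e, hu]
    rw [h]
    exact J.add_mem (J.add_mem (J.smul_mem _ haJ) (J.smul_mem _ hd)) (J.smul_mem _ he)

theorem decomposable_B : Decomposable ℚ B := by
  apply le_antisymm
  · apply sSup_le
    rintro J ⟨⟨h, _⟩, _⟩
    exact h
  · have haB : a ∈ B := rfl
    have hdB : d ∈ B := rfl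
    have heB : e ∈ B := rfl
    have h1 : Submodule.span ℚ {a, d} ∈ {J | IsIdealOf ℚ B J ∧ J ≠ B} := by
      refine ⟨⟨?_, ?_⟩, ?_⟩
      · rw [Submodule.span_le]
        rintro x (rfl | rfl)
        · exact haB
        · exact hdB
      · intro x hx y hy
        rw [Submodule.mem_span_pair] at hx ⊢
        obtain ⟨s, t, rfl⟩ := hx
        rw [mem_B] at hy
        refine ⟨s * y.p, 2 * (s * y.q + t * y.p), ?_⟩
        ext <;> simp [a, d, hy]
      · intro h
        have : e ∈ Submodule.span ℚ {a, d} := by rw [h]; exact heB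
        rw [Submodule.mem_span_pair] at this
        obtain ⟨s, t, h2⟩ := this
        have h3 := congrArg T.r h2
        simp [a, d, e] at h3
    have h2 : Submodule.span ℚ {e} ∈ {J | IsIdealOf ℚ B J ∧ J ≠ B} := by
      refine ⟨⟨?_, ?_⟩, ?_⟩
      · rw [Submodule.span_le]
        rintro x rfl
        exact heB
      · intro x hx y hy
        rw [Submodule.mem_span_singleton] at hx ⊢
        obtain ⟨s, rfl⟩ := hx
        rw [mem_B] at hy
        refine ⟨0, ?_⟩
        ext <;> simp [e, hy]
      · intro h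
        have : a ∈ Submodule.span ℚ {e} := by rw [h]; exact haB
        rw [Submodule.mem_span_singleton] at this
        obtain ⟨s, h2⟩ := this
        have h3 := congrArg T.p h2
        simp [a, e] at h3
    intro u hu
    rw [mem_B] at hu
    have h : u = (u.p • a + u.q • d) + u.r • e := by
      ext <;> simp [a, d, e, hu]
    rw [h]
    refine Submodule.add_mem _ ?_ ?_
    · exact (le_sSup h1) (Submodule.mem_span_pair.mpr ⟨_, _, rfl⟩)
    · exact (le_sSup h2) (Submodule.mem_span_singleton.mpr ⟨_, rfl⟩)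

/-- **Negative answer to Q1.**  There is a primitive axial algebra `(A, X)` over `ℚ`, with `A` of
dimension four, and an axis `a ∈ X` such that the block `I_a` is decomposable: it is the sum of its
proper ideals (as an algebra). -/
theorem result :
    ∃ (A : Type) (_ : NonUnitalNonAssocCommRing A) (_ : Module ℚ A) (_ : IsScalarTower ℚ A A)
      (_ : SMulCommClass ℚ A A) (𝓕 : FusionLaw ℚ) (X : Set A),
      IsPrimitiveAxial ℚ 𝓕 X ∧ ∃ a ∈ X, Decomposable ℚ (block ℚ a) := by
  refine ⟨T, inferInstance, inferInstance, inferInstance, inferInstance, law, {a, b},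
    ⟨?_, generated⟩, a, by simp, ?_⟩
  · rintro x (rfl | rfl)
    · exact axis_a
    · exact axis_b
  · rw [block_a]
    exact decomposable_B

end Pool.Agent.Results.MP_89b943_al.DecomposableBlock
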